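import Mathlib
import Pool.Agent.V11122.TwoColor

set_option autoImplicit false

/-! Graphs of maximum degree three have `ℓ`-blocking partitions of bounded width. -/

namespace Pool.Agent.Results.MP_cb714e_co.BlockingDegreeThree

open SimpleGraph

/-- The partition `R` (given as an equivalence relation) is connected: every part induces a
connected subgraph. -/
def IsConnectedPartition {V : Type} (G : SimpleGraph V) (R : Setoid V) : Prop :=
  ∀ v, (G.induce {u | R v u}).Connected

/-- Every part of `R` has at most `c` vertices. -/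
def WidthLE {V : Type} (R : Setoid V) (c : ℕ) : Prop := ∀ v, {u | R v u}.ncard ≤ c

/-- `R` is `ℓ`-blocking: every path of `G` that has at most one vertex in each part has length at
most `ℓ`. -/
def IsBlocking {V : Type} (G : SimpleGraph V) (R : Setoid V) (ℓ : ℕ) : Prop :=
  ∀ (u v : V) (P : G.Walk u v), P.IsPath →
    (∀ x ∈ P.support, ∀ y ∈ P.support, R x y → x = y) → P.length ≤ ℓ

/-! ### Degrees -/

/-- no four distinct neighbours -/
def Deg3 {V : Type} (G : SimpleGraph V) : Prop :=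
  ∀ v a b c d, G.Adj v a → G.Adj v b → G.Adj v c → G.Adj v d →
    a = b ∨ a = c ∨ a = d ∨ b = c ∨ b = d ∨ c = d

/-- no three distinct neighbours -/
def Deg2 {V : Type} (H : SimpleGraph V) : Prop :=
  ∀ v a b c, H.Adj v a → H.Adj v b → H.Adj v c → a = b ∨ a = c ∨ b = c

/-- at least two neighbours -/
def Two {V : Type} (H : SimpleGraph V) (v : V) : Prop := ∃ a b, a ≠ b ∧ H.Adj v a ∧ H.Adj v b

/-- no neighbours -/
def Iso {V : Type} (H : SimpleGraph V) (v : V) : Prop := ∀ a, ¬ H.Adj v a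

theorem not_two {V : Type} {H : SimpleGraph V} {v : V} (h : ¬ Two H v) {a b : V}
    (ha : H.Adj v a) (hb : H.Adj v b) : a = b := by
  by_contra hne
  exact h ⟨a, b, hne, ha, hb⟩

theorem Iso.not_two {V : Type} {H : SimpleGraph V} {v : V} (h : Iso H v) : ¬ Two H v := by
  rintro ⟨a, b, -, ha, -⟩
  exact h a ha

/-! ### The optimal subgraph -/

/-- Add the edge `xy`. -/
def addE {V : Type} (H : SimpleGraph V) (x y : V) (hxy : x ≠ y) : SimpleGraph V where
  Adj a b := H.Adj a b ∨ (a = x ∧ b = y) ∨ (a = y ∧ b = x)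
  symm := ⟨by
    rintro a b (h | ⟨rfl, rfl⟩ | ⟨rfl, rfl⟩)
    · exact Or.inl h.symm
    · exact Or.inr (Or.inr ⟨rfl, rfl⟩)
    · exact Or.inr (Or.inl ⟨rfl, rfl⟩)⟩
  loopless := ⟨by
    rintro a (h | ⟨rfl, h⟩ | ⟨rfl, h⟩)
    · exact h.ne rfl
    · exact hxy h
    · exact hxy h.symm⟩

/-- Replace the edge `wx` by `vw`. -/
def swapE {V : Type} (H : SimpleGraph V) (v w x : V) (hvw : v ≠ w) : SimpleGraph V where
  Adj a b := (H.Adj a b ∧ ¬ (a = w ∧ b = x) ∧ ¬ (a = x ∧ b = w)) ∨ (a = v ∧ b = w) ∨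
    (a = w ∧ b = v)
  symm := ⟨by
    rintro a b (⟨h, h1, h2⟩ | ⟨rfl, rfl⟩ | ⟨rfl, rfl⟩)
    · exact Or.inl ⟨h.symm, fun h' => h2 ⟨h'.2, h'.1⟩, fun h' => h1 ⟨h'.2, h'.1⟩⟩
    · exact Or.inr (Or.inr ⟨rfl, rfl⟩)
    · exact Or.inr (Or.inl ⟨rfl, rfl⟩)⟩
  loopless := ⟨by
    rintro a (⟨h, -, -⟩ | ⟨rfl, h⟩ | ⟨rfl, h⟩)
    · exact h.ne rfl
    · exact hvw h
    · exact hvw h.symm⟩

/-- The potential. -/
noncomputable def pot {V : Type} (H : SimpleGraph V) : ℕ :=
  {p : V × V | H.Adj p.1 p.2}.ncard + {v : V | ∃ u, H.Adj v u}.ncard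

theorem exists_opt {V : Type} [Finite V] (G : SimpleGraph V) :
    ∃ H ≤ G, Deg2 H ∧ (∀ x y, G.Adj x y → ¬ Two H x → ¬ Two H y → H.Adj x y) ∧
      (∀ v w x, Iso H v → G.Adj v w → H.Adj w x → ¬ Two H x) := by
  classical
  obtain ⟨H, ⟨hHG, hH2⟩, hmax⟩ := Set.exists_max_image {H : SimpleGraph V | H ≤ G ∧ Deg2 H} pot
    (Set.toFinite _) ⟨⊥, bot_le, fun v a b c h => absurd h (by simp)⟩
  refine ⟨H, hHG, hH2, ?_, ?_⟩
  · intro x y hxy hx hy
    by_contra hnot
    have hle : addE H x y hxy.ne ≤ G := by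
      rintro a b (h | ⟨rfl, rfl⟩ | ⟨rfl, rfl⟩)
      · exact hHG h
      · exact hxy
      · exact hxy.symm
    have hd : Deg2 (addE H x y hxy.ne) := by
      intro v a b c ha hb hc
      by_cases hvx : v = x
      · subst hvx
        have hn : ∀ a, (addE H v y hxy.ne).Adj v a → H.Adj v a ∨ a = y := by
          rintro a (h | ⟨-, h⟩ | ⟨h, -⟩)
          · exact Or.inl h
          · exact Or.inr h
          · exact absurd h hxy.ne
        rcases hn a ha with ha | ha <;> rcases hn b hb with hb | hb <;>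
          rcases hn c hc with hc | hc
        · exact Or.inl (not_two hx ha hb)
        · exact Or.inl (not_two hx ha hb)
        · exact Or.inr (Or.inl (not_two hx ha hc))
        · exact Or.inr (Or.inr (hb.trans hc.symm))
        · exact Or.inr (Or.inr (not_two hx hb hc))
        · exact Or.inr (Or.inl (ha.trans hc.symm))
        · exact Or.inl (ha.trans hb.symm)
        · exact Or.inl (ha.trans hb.symm)
      · by_cases hvy : v = y
        · subst hvy
          have hn : ∀ a, (addE H x v hxy.ne).Adj v a → H.Adj v a ∨ a = x := by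
            rintro a (h | ⟨h, -⟩ | ⟨-, h⟩)
            · exact Or.inl h
            · exact absurd h hvx
            · exact Or.inr h
          rcases hn a ha with ha | ha <;> rcases hn b hb with hb | hb <;>
            rcases hn c hc with hc | hc
          · exact Or.inl (not_two hy ha hb)
          · exact Or.inl (not_two hy ha hb)
          · exact Or.inr (Or.inl (not_two hy ha hc))
          · exact Or.inr (Or.inr (hb.trans hc.symm))
          · exact Or.inr (Or.inr (not_two hy hb hc))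
          · exact Or.inr (Or.inl (ha.trans hc.symm))
          · exact Or.inl (ha.trans hb.symm)
          · exact Or.inl (ha.trans hb.symm)
        · have hn : ∀ a, (addE H x y hxy.ne).Adj v a → H.Adj v a := by
            rintro a (h | ⟨h, -⟩ | ⟨h, -⟩)
            · exact h
            · exact absurd h hvx
            · exact absurd h hvy
          exact hH2 v a b c (hn a ha) (hn b hb) (hn c hc)
    have h1 := hmax _ ⟨hle, hd⟩
    have h2 : {p : V × V | H.Adj p.1 p.2}.ncard <
        {p : V × V | (addE H x y hxy.ne).Adj p.1 p.2}.ncard := by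
      apply Set.ncard_lt_ncard _ (Set.toFinite _)
      refine ⟨fun p hp => Or.inl hp, fun hsub => hnot ?_⟩
      exact hsub (show (x, y) ∈ {p : V × V | (addE H x y hxy.ne).Adj p.1 p.2} from
        Or.inr (Or.inl ⟨rfl, rfl⟩))
    have h3 : {v : V | ∃ u, H.Adj v u}.ncard ≤
        {v : V | ∃ u, (addE H x y hxy.ne).Adj v u}.ncard :=
      Set.ncard_le_ncard (fun v ⟨u, hu⟩ => ⟨u, Or.inl hu⟩) (Set.toFinite _)
    unfold pot at h1
    omega
  · intro v w x hv hvw hwx hx
    have hxw : x ≠ w := hwx.ne'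
    have hxv : x ≠ v := by
      rintro rfl
      exact hv w hwx.symm
    have hle : swapE H v w x hvw.ne ≤ G := by
      rintro a b (⟨h, -, -⟩ | ⟨rfl, rfl⟩ | ⟨rfl, rfl⟩)
      · exact hHG h
      · exact hvw
      · exact hvw.symm
    have hd : Deg2 (swapE H v w x hvw.ne) := by
      intro u a b c ha hb hc
      by_cases huw : u = w
      · have hn : ∀ a, (swapE H v w x hvw.ne).Adj u a → (H.Adj w a ∧ a ≠ x) ∨ a = v := by
          rw [huw]
          rintro a (⟨h, h1, -⟩ | ⟨h, -⟩ | ⟨-, h⟩)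
          · exact Or.inl ⟨h, fun h' => h1 ⟨rfl, h'⟩⟩
          · exact absurd h.symm hvw.ne
          · exact Or.inr h
        have two : ∀ a b, (H.Adj w a ∧ a ≠ x) → (H.Adj w b ∧ b ≠ x) → a = b := by
          intro a b ha hb
          rcases hH2 w a b x ha.1 hb.1 hwx with h | h | h
          · exact h
          · exact absurd h ha.2
          · exact absurd h hb.2
        rcases hn a ha with ha | ha <;> rcases hn b hb with hb | hb <;>
          rcases hn c hc with hc | hc
        · exact Or.inl (two _ _ ha hb)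
        · exact Or.inl (two _ _ ha hb)
        · exact Or.inr (Or.inl (two _ _ ha hc))
        · exact Or.inr (Or.inr (hb.trans hc.symm))
        · exact Or.inr (Or.inr (two _ _ hb hc))
        · exact Or.inr (Or.inl (ha.trans hc.symm))
        · exact Or.inl (ha.trans hb.symm)
        · exact Or.inl (ha.trans hb.symm)
      · by_cases huv : u = v
        · have hn : ∀ a, (swapE H v w x hvw.ne).Adj u a → a = w := by
            rw [huv]
            rintro a (⟨h, -, -⟩ | ⟨-, h⟩ | ⟨h, -⟩)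
            · exact absurd h (hv a)
            · exact h
            · exact absurd h hvw.ne
          exact Or.inl ((hn a ha).trans (hn b hb).symm)
        · have hn : ∀ a, (swapE H v w x hvw.ne).Adj u a → H.Adj u a := by
            rintro a (⟨h, -, -⟩ | ⟨h, -⟩ | ⟨h, -⟩)
            · exact h
            · exact absurd h huv
            · exact absurd h huw
          exact hH2 u a b c (hn a ha) (hn b hb) (hn c hc)
    have h1 := hmax _ ⟨hle, hd⟩
    set D : Set (V × V) := {p : V × V | H.Adj p.1 p.2} with hD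
    set A : Set (V × V) := {(w, x), (x, w)} with hA
    set B : Set (V × V) := {(v, w), (w, v)} with hB
    have hD' : {p : V × V | (swapE H v w x hvw.ne).Adj p.1 p.2} = (D \ A) ∪ B := by
      ext ⟨a, b⟩
      simp only [Set.mem_setOf_eq, swapE, hD, hA, hB, Set.mem_union, Set.mem_diff,
        Set.mem_insert_iff, Set.mem_singleton_iff, Prod.mk.injEq, not_or]
    have h2 : D.ncard ≤ ((D \ A) ∪ B).ncard := by
      have hB2 : B.ncard = 2 := Set.ncard_pair (by
        intro h
        exact hvw.ne (congrArg Prod.fst h))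
      have hA2 : A.ncard ≤ 2 := by
        rw [hA]
        exact Set.ncard_insert_le _ _ |>.trans (by simp)
      have hdisj : Disjoint (D \ A) B := by
        rw [Set.disjoint_left]
        rintro p hp (rfl | hp')
        · exact hv w hp.1
        · rw [Set.mem_singleton_iff] at hp'
          subst hp'
          exact hv w (hp.1 : H.Adj w v).symm
      rw [Set.ncard_union_eq hdisj (Set.toFinite _) (Set.toFinite _), hB2]
      have h3 : D.ncard ≤ (D \ A).ncard + A.ncard := by
        have : D ⊆ (D \ A) ∪ A := by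
          intro p hp
          by_cases h : p ∈ A
          · exact Or.inr h
          · exact Or.inl ⟨hp, h⟩
        exact (Set.ncard_le_ncard this (Set.toFinite _)).trans (Set.ncard_union_le _ _)
      omega
    have h3 : {u : V | ∃ y, H.Adj u y}.ncard <
        {u : V | ∃ y, (swapE H v w x hvw.ne).Adj u y}.ncard := by
      apply Set.ncard_lt_ncard _ (Set.toFinite _)
      rw [Set.ssubset_iff_of_subset]
      · exact ⟨v, ⟨w, Or.inr (Or.inl ⟨rfl, rfl⟩)⟩, fun ⟨y, hy⟩ => hv y hy⟩
      · rintro u ⟨y, hy⟩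
        by_cases huw : u = w
        · exact ⟨v, Or.inr (Or.inr ⟨huw, rfl⟩)⟩
        · by_cases hux : u = x
          · obtain ⟨a, b, hab, ha, hb⟩ := hx
            rw [hux]
            by_cases haw : a = w
            · refine ⟨b, Or.inl ⟨hb, fun h => hxw h.1, fun h => hab (haw.trans h.2.symm)⟩⟩
            · exact ⟨a, Or.inl ⟨ha, fun h => hxw h.1, fun h => haw h.2⟩⟩
          · exact ⟨y, Or.inl ⟨hy, fun h => huw h.1, fun h => hux h.1⟩⟩
    unfold pot at h1
    rw [hD', ← hD] at h1
    omega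

/-! ### Windows -/

/-- `w` is a path on six vertices of `H`. -/
def IsWin {V : Type} (H : SimpleGraph V) (w : Fin 6 → V) : Prop :=
  Function.Injective w ∧ H.Adj (w 0) (w 1) ∧ H.Adj (w 1) (w 2) ∧ H.Adj (w 2) (w 3) ∧
    H.Adj (w 3) (w 4) ∧ H.Adj (w 4) (w 5)

theorem exists_family {V : Type} [Finite V] (H : SimpleGraph V) :
    ∃ F : Set (Fin 6 → V), (∀ w ∈ F, IsWin H w) ∧
      (∀ w ∈ F, ∀ w' ∈ F, ∀ i j, w i = w' j → w = w') ∧
      ∀ w, IsWin H w → ∃ w' ∈ F, ∃ i j, w i = w' j := by
  classical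
  obtain ⟨F, hF⟩ := Set.Finite.exists_maximal (s := {F : Set (Fin 6 → V) | (∀ w ∈ F, IsWin H w) ∧
      (∀ w ∈ F, ∀ w' ∈ F, ∀ i j, w i = w' j → w = w')}) (Set.toFinite _)
    ⟨∅, by simp, by simp⟩
  obtain ⟨h1, h2⟩ := hF.prop
  refine ⟨F, h1, h2, ?_⟩
  intro w hw
  by_contra hcon
  push Not at hcon
  have h3 : insert w F ∈ {F : Set (Fin 6 → V) | (∀ w ∈ F, IsWin H w) ∧
      (∀ w ∈ F, ∀ w' ∈ F, ∀ i j, w i = w' j → w = w')} := by
    constructor
    · rintro w' (rfl | hw')
      · exact hw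
      · exact h1 w' hw'
    · rintro a (rfl | ha) b (rfl | hb) i j hij
      · rfl
      · exact absurd hij (hcon b hb i j)
      · exact absurd hij.symm (hcon a ha j i)
      · exact h2 a ha b hb i j hij
  have h4 := hF.le_of_ge h3 (Set.subset_insert w F)
  exact hcon w (h4 (Set.mem_insert w F)) 0 0 rfl

/-- In a maximal matching of a symmetric relation, given as an involution. -/
theorem exists_matching {D : Type} [Finite D] (r : D → D → Prop) (hr : ∀ a b, r a b → r b a) :
    ∃ α : D → D, (∀ d, α (α d) = d) ∧ (∀ d, α d ≠ d → r d (α d)) ∧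
      ∀ d e, d ≠ e → r d e → α d = d → α e = e → False := by
  classical
  obtain ⟨α, ⟨h1, h2⟩, hmax⟩ := Set.exists_max_image
    {α : D → D | (∀ d, α (α d) = d) ∧ (∀ d, α d ≠ d → r d (α d))}
    (fun α => {d | α d ≠ d}.ncard) (Set.toFinite _) ⟨id, fun _ => rfl, fun d h => absurd rfl h⟩
  refine ⟨α, h1, h2, ?_⟩
  intro d e hde hrde hd he
  have hout : ∀ x, x ≠ d → x ≠ e → α x ≠ d ∧ α x ≠ e := by
    intro x hxd hxe
    constructor
    · intro h
      have := h1 x
      rw [h, hd] at this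
      exact hxd this.symm
    · intro h
      have := h1 x
      rw [h, he] at this
      exact hxe this.symm
  let β : D → D := fun x => if x = d then e else if x = e then d else α x
  have hβd : β d = e := by simp [β]
  have hβe : β e = d := by simp [β, hde.symm]
  have hβo : ∀ x, x ≠ d → x ≠ e → β x = α x := by
    intro x hxd hxe
    simp [β, hxd, hxe]
  have hβ : β ∈ {α : D → D | (∀ d, α (α d) = d) ∧ (∀ d, α d ≠ d → r d (α d))} := by
    constructor
    · intro x
      by_cases hxd : x = d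
      · rw [hxd, hβd, hβe]
      · by_cases hxe : x = e
        · rw [hxe, hβe, hβd]
        · obtain ⟨h3, h4⟩ := hout x hxd hxe
          rw [hβo x hxd hxe, hβo _ h3 h4, h1]
    · intro x hx
      by_cases hxd : x = d
      · rw [hxd, hβd]; exact hrde
      · by_cases hxe : x = e
        · rw [hxe, hβe]; exact hr _ _ hrde
        · rw [hβo x hxd hxe] at hx ⊢
          exact h2 x hx
  have h3 := hmax β hβ
  have h4 : {x | α x ≠ x}.ncard < {x | β x ≠ x}.ncard := by
    apply Set.ncard_lt_ncard _ (Set.toFinite _)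
    refine ⟨?_, ?_⟩
    · intro x hx
      have hxd : x ≠ d := fun h => hx (by rw [h, hd])
      have hxe : x ≠ e := fun h => hx (by rw [h, he])
      show β x ≠ x
      rw [hβo x hxd hxe]
      exact hx
    · intro hsub
      have : d ∈ {x | β x ≠ x} := by
        show β d ≠ d
        rw [hβd]
        exact hde.symm
      exact (hsub this) hd
  omega

section core
variable {V : Type} {G H : SimpleGraph V}

/-- The candidate edges: two for every window. -/
abbrev Cand (F : Set (Fin 6 → V)) : Type := F × Bool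

/-- The first end of a candidate edge. -/
def end1 {F : Set (Fin 6 → V)} (c : Cand F) : V := if c.2 then c.1.1 3 else c.1.1 1

/-- The second end of a candidate edge. -/
def end2 {F : Set (Fin 6 → V)} (c : Cand F) : V := if c.2 then c.1.1 4 else c.1.1 2

/-- `a` is an end of `c`. -/
def IsEnd {F : Set (Fin 6 → V)} (a : V) (c : Cand F) : Prop := a = end1 c ∨ a = end2 c

/-- The pair `ab` is a chosen candidate edge. -/
def Cut {F : Set (Fin 6 → V)} (χ : Cand F → Bool) (a b : V) : Prop :=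
  ∃ c, χ c = true ∧ ((a = end1 c ∧ b = end2 c) ∨ (a = end2 c ∧ b = end1 c))

theorem Cut.symm {F : Set (Fin 6 → V)} {χ : Cand F → Bool} {a b : V} (h : Cut χ a b) :
    Cut χ b a := by
  obtain ⟨c, h1, h2 | h2⟩ := h
  · exact ⟨c, h1, Or.inr ⟨h2.2, h2.1⟩⟩
  · exact ⟨c, h1, Or.inl ⟨h2.2, h2.1⟩⟩

theorem end_unique {F : Set (Fin 6 → V)} (hF1 : ∀ w ∈ F, IsWin H w)
    (hF2 : ∀ w ∈ F, ∀ w' ∈ F, ∀ i j, w i = w' j → w = w') {a : V} {c c' : Cand F}
    (h : IsEnd a c) (h' : IsEnd a c') : c = c' := by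
  obtain ⟨⟨w, hw⟩, b⟩ := c
  obtain ⟨⟨w', hw'⟩, b'⟩ := c'
  have key : ∀ i j, w i = w' j → w = w' ∧ i = j := by
    intro i j hij
    have h1 := hF2 w hw w' hw' i j hij
    subst h1
    exact ⟨rfl, (hF1 w hw).1 hij⟩
  unfold IsEnd end1 end2 at h h'
  cases b <;> cases b' <;> simp only [if_true, if_false, Bool.false_eq_true] at h h' <;>
    rcases h with h | h <;> rcases h' with h' | h' <;>
    obtain ⟨h1, h2⟩ := key _ _ (h.symm.trans h') <;>
    first
    | (subst h1; rfl)
    | exact absurd h2 (by decide)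

theorem end_adj {F : Set (Fin 6 → V)} (hF1 : ∀ w ∈ F, IsWin H w) (c : Cand F) :
    H.Adj (end1 c) (end2 c) := by
  obtain ⟨⟨w, hw⟩, b⟩ := c
  obtain ⟨-, h1, h2, h3, h4, h5⟩ := hF1 w hw
  unfold end1 end2
  cases b
  · simpa using h2
  · simpa using h4

theorem end_two {F : Set (Fin 6 → V)} (hF1 : ∀ w ∈ F, IsWin H w) {a : V} {c : Cand F}
    (h : IsEnd a c) : Two H a := by
  obtain ⟨⟨w, hw⟩, b⟩ := c
  obtain ⟨hinj, h1, h2, h3, h4, h5⟩ := hF1 w hw
  have hne : ∀ i j : Fin 6, i ≠ j → w i ≠ w j := fun i j hij h => hij (hinj h)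
  unfold IsEnd end1 end2 at h
  cases b <;> simp only [if_true, if_false, Bool.false_eq_true] at h <;> rcases h with h | h <;>
    rw [h]
  · exact ⟨w 0, w 2, hne _ _ (by decide), h1.symm, h2⟩
  · exact ⟨w 1, w 3, hne _ _ (by decide), h2.symm, h3⟩
  · exact ⟨w 2, w 4, hne _ _ (by decide), h3.symm, h4⟩
  · exact ⟨w 3, w 5, hne _ _ (by decide), h4.symm, h5⟩

theorem Cut.adj {F : Set (Fin 6 → V)} (hF1 : ∀ w ∈ F, IsWin H w) {χ : Cand F → Bool} {a b : V}
    (h : Cut χ a b) : H.Adj a b := by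
  obtain ⟨c, -, ⟨rfl, rfl⟩ | ⟨rfl, rfl⟩⟩ := h
  · exact end_adj hF1 c
  · exact (end_adj hF1 c).symm

theorem Cut.two {F : Set (Fin 6 → V)} (hF1 : ∀ w ∈ F, IsWin H w) {χ : Cand F → Bool} {a b : V}
    (h : Cut χ a b) : Two H a := by
  obtain ⟨c, -, ⟨rfl, rfl⟩ | ⟨rfl, rfl⟩⟩ := h
  · exact end_two hF1 (c := c) (Or.inl rfl)
  · exact end_two hF1 (c := c) (Or.inr rfl)

/-- At most one cut edge at a vertex. -/
theorem Cut.unique {F : Set (Fin 6 → V)} (hF1 : ∀ w ∈ F, IsWin H w)
    (hF2 : ∀ w ∈ F, ∀ w' ∈ F, ∀ i j, w i = w' j → w = w') {χ : Cand F → Bool} {a b b' : V}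
    (h : Cut χ a b) (h' : Cut χ a b') : b = b' := by
  obtain ⟨c, -, hc⟩ := h
  obtain ⟨c', -, hc'⟩ := h'
  have hcc : c = c' := by
    apply end_unique hF1 hF2 (a := a)
    · rcases hc with hc | hc
      · exact Or.inl hc.1
      · exact Or.inr hc.1
    · rcases hc' with hc | hc
      · exact Or.inl hc.1
      · exact Or.inr hc.1
  subst hcc
  have hne := (end_adj hF1 c).ne
  rcases hc with hc | hc <;> rcases hc' with hc' | hc'
  · exact hc.2.trans hc'.2.symm
  · exact absurd (hc.1.symm.trans hc'.1) hne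
  · exact absurd (hc'.1.symm.trans hc.1) hne
  · exact hc.2.trans hc'.2.symm

/-- There is no path on 16 vertices in `H` without cut edges. -/
theorem no_long (hH2 : Deg2 H) {F : Set (Fin 6 → V)} (hF1 : ∀ w ∈ F, IsWin H w)
    (hF3 : ∀ w, IsWin H w → ∃ w' ∈ F, ∃ i j, w i = w' j) {χ : Cand F → Bool}
    (hχ : ∀ w, χ (w, true) = !χ (w, false)) (q : ℕ → V)
    (hinj : ∀ i j, i ≤ 15 → j ≤ 15 → q i = q j → i = j)
    (hadj : ∀ i, i < 15 → H.Adj (q i) (q (i + 1)))
    (hcut : ∀ i, i < 15 → ¬ Cut χ (q i) (q (i + 1))) : False := by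
  have hwin : IsWin H (fun i : Fin 6 => q (5 + i.1)) := by
    refine ⟨?_, hadj 5 (by omega), hadj 6 (by omega), hadj 7 (by omega), hadj 8 (by omega),
      hadj 9 (by omega)⟩
    intro i j hij
    have := hinj _ _ (by omega) (by omega) hij
    exact Fin.ext (by omega)
  obtain ⟨w, hw, i, j, hij⟩ := hF3 _ hwin
  obtain ⟨hwinj, h1, h2, h3, h4, h5⟩ := hF1 w hw
  have hnb : ∀ t x, 1 ≤ t → t ≤ 14 → H.Adj (q t) x → x = q (t - 1) ∨ x = q (t + 1) := by
    intro t x ht1 ht2 hx
    have e1 := hadj (t - 1) (by omega)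
    rw [Nat.sub_add_cancel ht1] at e1
    rcases hH2 (q t) x (q (t - 1)) (q (t + 1)) hx e1.symm (hadj t (by omega)) with h | h | h
    · exact Or.inl h
    · exact Or.inr h
    · have := hinj _ _ (by omega) (by omega) h
      omega
  -- every vertex of the window lies on the path
  have hstep : ∀ a b, H.Adj (w a) (w b) → ∀ t d, t ≤ 10 + d → 5 ≤ t + d → d ≤ 4 → w a = q t →
      ∃ t', t' ≤ 10 + (d + 1) ∧ 5 ≤ t' + (d + 1) ∧ w b = q t' := by
    intro a b hab t d ht1 ht2 hd hq
    rw [hq] at hab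
    rcases hnb t _ (by omega) (by omega) hab with h | h
    · exact ⟨t - 1, by omega, by omega, h⟩
    · exact ⟨t + 1, by omega, by omega, h⟩
  have hA : ∀ a b : Fin 6, (a.1 + 1 = b.1 ∨ b.1 + 1 = a.1) → H.Adj (w a) (w b) := by
    intro a b hab
    fin_cases a <;> fin_cases b <;> first
      | exact h1 | exact h2 | exact h3 | exact h4 | exact h5
      | exact h1.symm | exact h2.symm | exact h3.symm | exact h4.symm | exact h5.symm
      | (exfalso; simp at hab)
  have hreach : ∀ d, d ≤ 5 → ∀ k : Fin 6, (k.1 = j.1 + d ∨ j.1 = k.1 + d) →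
      ∃ t, t ≤ 10 + d ∧ 5 ≤ t + d ∧ w k = q t := by
    intro d
    induction d with
    | zero =>
      intro _ k hk
      have : k = j := Fin.ext (by omega)
      subst this
      exact ⟨5 + i.1, by omega, by omega, hij.symm⟩
    | succ d ih =>
      intro hd k hk
      rcases hk with hk | hk
      · obtain ⟨t, e1, e2, e3⟩ := ih (by omega) ⟨k.1 - 1, by omega⟩ (Or.inl (by simp; omega))
        exact hstep _ k (hA _ _ (Or.inl (by simp; omega))) t d e1 e2 (by omega) e3
      · obtain ⟨t, e1, e2, e3⟩ := ih (by omega) ⟨k.1 + 1, by omega⟩ (Or.inr (by simp; omega))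
        exact hstep _ k (hA _ _ (Or.inr (by simp))) t d e1 e2 (by omega) e3
  have hmid : ∀ k : Fin 6, 1 ≤ k.1 → k.1 ≤ 4 → ∃ t, 1 ≤ t ∧ t ≤ 14 ∧ w k = q t := by
    intro k hk1 hk2
    rcases le_total j.1 k.1 with h | h
    · obtain ⟨t, e1, e2, e3⟩ := hreach (k.1 - j.1) (by omega) k (Or.inl (by omega))
      exact ⟨t, by omega, by omega, e3⟩
    · obtain ⟨t, e1, e2, e3⟩ := hreach (j.1 - k.1) (by omega) k (Or.inr (by omega))
      exact ⟨t, by omega, by omega, e3⟩
  have hfin : ∀ c : Cand F, c.1.1 = w → χ c = true → False := by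
    intro c hcw hc
    have hE1 : ∃ t, 1 ≤ t ∧ t ≤ 14 ∧ end1 c = q t := by
      unfold end1
      rw [hcw]
      split_ifs
      · exact hmid 3 (by decide) (by decide)
      · exact hmid 1 (by decide) (by decide)
    obtain ⟨t, ht1, ht2, ht3⟩ := hE1
    have hadj' := end_adj hF1 c
    rw [ht3] at hadj'
    rcases hnb t _ ht1 ht2 hadj' with h | h
    · apply hcut (t - 1) (by omega)
      rw [Nat.sub_add_cancel ht1]
      exact ⟨c, hc, Or.inr ⟨h.symm, ht3.symm⟩⟩
    · exact hcut t (by omega) ⟨c, hc, Or.inl ⟨ht3.symm, h.symm⟩⟩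
  cases hb : χ (⟨w, hw⟩, false)
  · exact hfin (⟨w, hw⟩, true) rfl (by rw [hχ, hb]; rfl)
  · exact hfin (⟨w, hw⟩, false) rfl hb

/-! ### The partition -/

/-- The centre chosen for an isolated vertex of `H`. -/
noncomputable def kap (G : SimpleGraph V) (v : V) : V := by
  classical
  exact if h : ∃ w, G.Adj v w then h.choose else v

theorem kap_adj {v : V} (h : ∃ w, G.Adj v w) : G.Adj v (kap G v) := by
  unfold kap
  rw [dif_pos h]
  exact h.choose_spec

/-- `v` is isolated in `H` and is attached to `w`. -/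
def Cl (G H : SimpleGraph V) (v w : V) : Prop := Iso H v ∧ G.Adj v w ∧ w = kap G v

/-- The graph whose components are the parts. -/
def KK (G H : SimpleGraph V) {F : Set (Fin 6 → V)} (χ : Cand F → Bool) : SimpleGraph V where
  Adj a b := (H.Adj a b ∧ ¬ Cut χ a b) ∨ Cl G H a b ∨ Cl G H b a
  symm := ⟨by
    rintro a b (⟨h1, h2⟩ | h | h)
    · exact Or.inl ⟨h1.symm, fun h => h2 h.symm⟩
    · exact Or.inr (Or.inr h)
    · exact Or.inr (Or.inl h)⟩
  loopless := ⟨by
    rintro a (⟨h1, -⟩ | h | h)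
    · exact h1.ne rfl
    · exact h.2.1.ne rfl
    · exact h.2.1.ne rfl⟩

theorem KK_le (hHG : H ≤ G) {F : Set (Fin 6 → V)} (χ : Cand F → Bool) : KK G H χ ≤ G := by
  rintro a b (⟨h1, -⟩ | h | h)
  · exact hHG h1
  · exact h.2.1
  · exact h.2.1.symm

/-- Isolated vertices of `H` have at most one neighbour in `KK`. -/
theorem KK_iso (hI : ∀ x y, G.Adj x y → ¬ Two H x → ¬ Two H y → H.Adj x y)
    {F : Set (Fin 6 → V)} {χ : Cand F → Bool} {v a : V} (hv : Iso H v)
    (h : (KK G H χ).Adj v a) : a = kap G v := by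
  rcases h with ⟨h1, -⟩ | h | h
  · exact absurd h1 (hv a)
  · exact h.2.2
  · exact absurd (hI _ _ h.2.1 h.1.not_two hv.not_two) (hv a ∘ SimpleGraph.Adj.symm)

/-- Paths in `KK` have at most 17 edges. -/
theorem KK_path (hH2 : Deg2 H) (hI : ∀ x y, G.Adj x y → ¬ Two H x → ¬ Two H y → H.Adj x y)
    {F : Set (Fin 6 → V)} (hF1 : ∀ w ∈ F, IsWin H w)
    (hF3 : ∀ w, IsWin H w → ∃ w' ∈ F, ∃ i j, w i = w' j) {χ : Cand F → Bool}
    (hχ : ∀ w, χ (w, true) = !χ (w, false)) {a b : V} (P : (KK G H χ).Walk a b)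
    (hP : P.IsPath) : P.length ≤ 17 := by
  by_contra hcon
  push Not at hcon
  have hinj : ∀ i j, i ≤ P.length → j ≤ P.length → P.getVert i = P.getVert j → i = j :=
    fun i j hi hj h => hP.getVert_injOn hi hj h
  have hni : ∀ i, 1 ≤ i → i < P.length → ¬ Iso H (P.getVert i) := by
    intro i hi1 hi2 hiso
    have e1 := P.adj_getVert_succ (i := i - 1) (by omega)
    rw [Nat.sub_add_cancel hi1] at e1
    have e2 := P.adj_getVert_succ (i := i) hi2
    have h1 := KK_iso hI hiso e1.symm
    have h2 := KK_iso hI hiso e2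
    have := hinj _ _ (by omega) (by omega) (h1.trans h2.symm)
    omega
  have hH : ∀ i, 1 ≤ i → i + 1 < P.length →
      H.Adj (P.getVert i) (P.getVert (i + 1)) ∧ ¬ Cut χ (P.getVert i) (P.getVert (i + 1)) := by
    intro i hi1 hi2
    rcases P.adj_getVert_succ (i := i) (by omega) with h | h | h
    · exact h
    · exact absurd h.1 (hni i hi1 (by omega))
    · exact absurd h.1 (hni (i + 1) (by omega) hi2)
  refine no_long hH2 hF1 hF3 hχ (fun i => P.getVert (i + 1)) ?_ ?_ ?_
  · intro i j hi hj h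
    have := hinj _ _ (by omega) (by omega) h
    omega
  · intro i hi
    exact (hH (i + 1) (by omega) (by omega)).1
  · intro i hi
    exact (hH (i + 1) (by omega) (by omega)).2

/-- Balls in graphs of maximum degree three. -/
theorem ball_card [Finite V] {K : SimpleGraph V} (hK : ∀ v, (K.neighborSet v).ncard ≤ 3) (x : V)
    (n : ℕ) : {y | ∃ P : K.Walk x y, P.length ≤ n}.ncard ≤ 4 ^ n := by
  classical
  haveI : Fintype V := Fintype.ofFinite V
  induction n with
  | zero =>
    have : {y | ∃ P : K.Walk x y, P.length ≤ 0} ⊆ {x} := by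
      rintro y ⟨P, hP⟩
      have := SimpleGraph.Walk.eq_of_length_eq_zero (p := P) (by omega)
      exact this.symm
    exact (Set.ncard_le_ncard this (Set.toFinite _)).trans (by simp)
  | succ n ih =>
    set S : Finset V := Set.toFinset {y | ∃ P : K.Walk x y, P.length ≤ n} with hS
    have hsub : {y | ∃ P : K.Walk x y, P.length ≤ n + 1} ⊆
        ((S.biUnion (fun z => insert z (K.neighborSet z).toFinset) : Finset V) : Set V) := by
      rintro y ⟨P, hP⟩
      rw [Finset.mem_coe, Finset.mem_biUnion]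
      by_cases hle : P.length ≤ n
      · refine ⟨y, ?_, Finset.mem_insert_self _ _⟩
        rw [hS, Set.mem_toFinset]
        exact ⟨P, hle⟩
      · have hpos : ¬ P.Nil := by
          intro h
          rw [SimpleGraph.Walk.nil_iff_length_eq] at h
          omega
        refine ⟨P.penultimate, ?_, ?_⟩
        · rw [hS, Set.mem_toFinset]
          refine ⟨P.dropLast, ?_⟩
          have := P.length_dropLast_add_one hpos
          omega
        · rw [Finset.mem_insert, Set.mem_toFinset]
          right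
          exact P.adj_penultimate hpos
    calc {y | ∃ P : K.Walk x y, P.length ≤ n + 1}.ncard
        ≤ ((S.biUnion (fun z => insert z (K.neighborSet z).toFinset) : Finset V) :
            Set V).ncard := Set.ncard_le_ncard hsub (Set.toFinite _)
      _ = (S.biUnion (fun z => insert z (K.neighborSet z).toFinset)).card :=
          Set.ncard_coe_finset _
      _ ≤ ∑ z ∈ S, (insert z (K.neighborSet z).toFinset).card := Finset.card_biUnion_le
      _ ≤ ∑ z ∈ S, 4 := by
          apply Finset.sum_le_sum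
          intro z _
          refine (Finset.card_insert_le _ _).trans ?_
          have := hK z
          rw [Set.ncard_eq_toFinset_card'] at this
          omega
      _ = S.card * 4 := by simp
      _ ≤ 4 ^ n * 4 := by
          apply Nat.mul_le_mul_right
          rw [hS, ← Set.ncard_eq_toFinset_card']
          exact ih
      _ = 4 ^ (n + 1) := by rw [pow_succ]

/-! ### Blocking -/

/-- Two vertices linked by an edge outside `H`, or by two such edges through an end of a
component of `H`. -/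
def Link (G H : SimpleGraph V) (a b : V) : Prop :=
  a ≠ b ∧ ((G.Adj a b ∧ ¬ H.Adj a b) ∨ ∃ u, ¬ Two H u ∧ ¬ Iso H u ∧
    (G.Adj a u ∧ ¬ H.Adj a u) ∧ (G.Adj u b ∧ ¬ H.Adj u b))

theorem Link.symm' {a b : V} (h : Link G H a b) : Link G H b a := by
  obtain ⟨hne, h | ⟨u, h1, h2, h3, h4⟩⟩ := h
  · exact ⟨hne.symm, Or.inl ⟨h.1.symm, fun h' => h.2 h'.symm⟩⟩
  · exact ⟨hne.symm, Or.inr ⟨u, h1, h2, ⟨h4.1.symm, fun h' => h4.2 h'.symm⟩,
      ⟨h3.1.symm, fun h' => h3.2 h'.symm⟩⟩⟩

theorem non_unique (hG : Deg3 G) (hHG : H ≤ G) {a x y : V} (ha : Two H a) (hx : G.Adj a x)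
    (hx' : ¬ H.Adj a x) (hy : G.Adj a y) (hy' : ¬ H.Adj a y) : x = y := by
  obtain ⟨b, c, hbc, hb, hc⟩ := ha
  rcases hG a b c x y (hHG hb) (hHG hc) hx hy with h | h | h | h | h | h
  · exact absurd h hbc
  · exact absurd (h ▸ hb) hx'
  · exact absurd (h ▸ hb) hy'
  · exact absurd (h ▸ hc) hx'
  · exact absurd (h ▸ hc) hy'
  · exact h

theorem link_unique (hG : Deg3 G) (hHG : H ≤ G) {a b b' : V} (ha : Two H a) (hb : Two H b)
    (hb' : Two H b') (h : Link G H a b) (h' : Link G H a b') : b = b' := by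
  obtain ⟨hne, h | ⟨u, h1, h2, h3, h4⟩⟩ := h <;>
    obtain ⟨hne', h' | ⟨u', h1', h2', h3', h4'⟩⟩ := h'
  · exact non_unique hG hHG ha h.1 h.2 h'.1 h'.2
  · have := non_unique hG hHG ha h.1 h.2 h3'.1 h3'.2
    subst this
    exact absurd hb h1'
  · have := non_unique hG hHG ha h'.1 h'.2 h3.1 h3.2
    subst this
    exact absurd hb' h1
  · have := non_unique hG hHG ha h3.1 h3.2 h3'.1 h3'.2
    subst this
    unfold Iso at h2
    push Not at h2
    obtain ⟨c, hc⟩ := h2
    rcases hG u c a b b' (hHG hc) h3.1.symm h4.1 h4'.1 with h | h | h | h | h | h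
    · exact absurd (h ▸ hc).symm h3.2
    · exact absurd (h ▸ hc) h4.2
    · exact absurd (h ▸ hc) h4'.2
    · exact absurd h hne
    · exact absurd h hne'
    · exact h

theorem blocking (hG : Deg3 G) (hHG : H ≤ G) (hH2 : Deg2 H)
    (hI : ∀ x y, G.Adj x y → ¬ Two H x → ¬ Two H y → H.Adj x y)
    (hC : ∀ v w x, Iso H v → G.Adj v w → H.Adj w x → ¬ Two H x)
    {F : Set (Fin 6 → V)} (hF1 : ∀ w ∈ F, IsWin H w)
    (hF2 : ∀ w ∈ F, ∀ w' ∈ F, ∀ i j, w i = w' j → w = w') {χ : Cand F → Bool}
    {α : Cand F → Cand F} (hα1 : ∀ c, α c ≠ c → ∃ a b, IsEnd a c ∧ IsEnd b (α c) ∧ Link G H a b)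
    (hα2 : ∀ c c', c ≠ c' → (∃ a b, IsEnd a c ∧ IsEnd b c' ∧ Link G H a b) → α c = c →
      α c' = c' → False)
    (hα3 : ∀ c, α c ≠ c → χ (α c) = !χ c)
    (p : ℕ → V) (L : ℕ) (hL : 12 ≤ L)
    (hinj : ∀ i j, i ≤ L → j ≤ L → p i = p j → i = j)
    (hadj : ∀ i, i < L → G.Adj (p i) (p (i + 1)))
    (hclean : ∀ i j, i ≤ L → j ≤ L → ¬ (KK G H χ).Adj (p i) (p j)) : False := by
  have hHcut : ∀ i j, i ≤ L → j ≤ L → H.Adj (p i) (p j) → Cut χ (p i) (p j) := by
    intro i j hi hj h
    by_contra hcon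
    exact hclean i j hi hj (Or.inl ⟨h, hcon⟩)
  -- no internal vertex is isolated in `H`
  have hN1 : ∀ i, 1 ≤ i → i < L → ¬ Iso H (p i) := by
    intro i hi1 hi2 hiso
    -- the neighbour which is internal
    have key : ∀ j k, j ≤ L → k ≤ L → G.Adj (p i) (p j) → G.Adj (p j) (p k) → k ≠ i → False := by
      intro j k hj hk hij hjk hki
      have htwo : Two H (p j) := by
        by_contra hnt
        exact hiso _ (hI _ _ hij hiso.not_two hnt)
      have hkH : H.Adj (p j) (p k) := by
        by_contra hnH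
        have := non_unique hG hHG htwo hij.symm (fun h => hiso _ h.symm) hjk hnH
        exact hki (hinj _ _ hk (by omega) this.symm)
      have h1 := hHcut j k hj hk hkH
      exact hC _ _ _ hiso hij hkH (h1.symm.two hF1)
    have e1 := hadj (i - 1) (by omega)
    rw [Nat.sub_add_cancel hi1] at e1
    have e2 := hadj i hi2
    rcases Nat.lt_or_ge i 2 with h | h
    · exact key (i + 1) (i + 2) (by omega) (by omega) e2 (hadj (i + 1) (by omega)) (by omega)
    · have e3 := hadj (i - 2) (by omega)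
      rw [show i - 2 + 1 = i - 1 by omega] at e3
      exact key (i - 1) (i - 2) (by omega) (by omega) e1.symm e3.symm (by omega)
  -- at a vertex of degree two in `H`
  have hA1 : ∀ i, 1 ≤ i → i < L → Two H (p i) →
      Cut χ (p (i - 1)) (p i) ∨ Cut χ (p i) (p (i + 1)) := by
    intro i hi1 hi2 htwo
    by_contra hcon
    push Not at hcon
    have e1 := hadj (i - 1) (by omega)
    rw [Nat.sub_add_cancel hi1] at e1
    have e2 := hadj i hi2
    have h1 : ¬ H.Adj (p i) (p (i - 1)) := fun h =>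
      hcon.1 (hHcut i (i - 1) (by omega) (by omega) h).symm
    have h2 : ¬ H.Adj (p i) (p (i + 1)) := fun h => hcon.2 (hHcut i (i + 1) (by omega) (by omega) h)
    have := non_unique hG hHG htwo e1.symm h1 e2 h2
    have := hinj _ _ (by omega) (by omega) this
    omega
  have hA2 : ∀ i, 1 ≤ i → i < L → Cut χ (p (i - 1)) (p i) → ¬ Cut χ (p i) (p (i + 1)) := by
    intro i hi1 hi2 h1 h2
    have := Cut.unique hF1 hF2 h1.symm h2
    have := hinj _ _ (by omega) (by omega) this
    omega
  -- at a vertex of degree one in `H`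
  have hB : ∀ i, 1 ≤ i → i < L → ¬ Two H (p i) → ¬ H.Adj (p (i - 1)) (p i) ∧
      ¬ H.Adj (p i) (p (i + 1)) ∧ Two H (p (i + 1)) := by
    intro i hi1 hi2 hnt
    have e1 := hadj (i - 1) (by omega)
    rw [Nat.sub_add_cancel hi1] at e1
    have e2 := hadj i hi2
    have h1 : ¬ H.Adj (p (i - 1)) (p i) := fun h =>
      hnt ((hHcut (i - 1) i (by omega) (by omega) h).symm.two hF1)
    have h2 : ¬ H.Adj (p i) (p (i + 1)) := fun h =>
      hnt ((hHcut i (i + 1) (by omega) (by omega) h).two hF1)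
    refine ⟨h1, h2, ?_⟩
    by_contra hnt'
    exact h2 (hI _ _ e2 hnt hnt')
  -- the next cut edge
  have hnext : ∀ j, j + 4 ≤ L → Cut χ (p j) (p (j + 1)) → ∃ j', j + 2 ≤ j' ∧ j' ≤ j + 3 ∧
      Cut χ (p j') (p (j' + 1)) ∧ Link G H (p (j + 1)) (p j') := by
    intro j hj hc
    have h1 := hA2 (j + 1) (by omega) (by omega) hc
    have h2 : ¬ H.Adj (p (j + 1)) (p (j + 1 + 1)) := fun h =>
      h1 (hHcut (j + 1) (j + 1 + 1) (by omega) (by omega) h)
    have hne : ∀ k, j + 2 ≤ k → k ≤ L → p (j + 1) ≠ p k := by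
      intro k hk1 hk2 h
      have := hinj _ _ (by omega) hk2 h
      omega
    by_cases htwo : Two H (p (j + 2))
    · rcases hA1 (j + 2) (by omega) (by omega) htwo with h | h
      · exact absurd h h1
      · exact ⟨j + 2, le_rfl, by omega, h, hne _ le_rfl (by omega),
          Or.inl ⟨hadj (j + 1) (by omega), h2⟩⟩
    · obtain ⟨h3, h4, h5⟩ := hB (j + 2) (by omega) (by omega) htwo
      rcases hA1 (j + 3) (by omega) (by omega) h5 with h | h
      · exact absurd (h.adj hF1) h4
      · exact ⟨j + 3, by omega, le_rfl, h, hne _ (by omega) (by omega),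
          Or.inr ⟨p (j + 2), htwo, hN1 _ (by omega) (by omega),
            ⟨hadj (j + 1) (by omega), h2⟩, ⟨hadj (j + 2) (by omega), h4⟩⟩⟩
  have hfirst : ∃ j, j ≤ 2 ∧ Cut χ (p j) (p (j + 1)) := by
    by_cases htwo : Two H (p 1)
    · rcases hA1 1 le_rfl (by omega) htwo with h | h
      · exact ⟨0, by omega, h⟩
      · exact ⟨1, by omega, h⟩
    · obtain ⟨h3, h4, h5⟩ := hB 1 le_rfl (by omega) htwo
      rcases hA1 2 (by omega) (by omega) h5 with h | h
      · exact absurd (h.adj hF1) h4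
      · exact ⟨2, le_rfl, h⟩
  obtain ⟨j1, hj1, hc1⟩ := hfirst
  obtain ⟨j2, hj2, hj2', hc2, hl12⟩ := hnext j1 (by omega) hc1
  obtain ⟨j3, hj3, hj3', hc3, hl23⟩ := hnext j2 (by omega) hc2
  obtain ⟨j4, hj4, hj4', hc4, hl34⟩ := hnext j3 (by omega) hc3
  have hcand : ∀ j, Cut χ (p j) (p (j + 1)) → ∃ c : Cand F, χ c = true ∧ IsEnd (p j) c ∧
      IsEnd (p (j + 1)) c ∧ ∀ a, IsEnd a c → a = p j ∨ a = p (j + 1) := by
    rintro j ⟨c, h1, h2 | h2⟩
    · refine ⟨c, h1, Or.inl h2.1, Or.inr h2.2, ?_⟩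
      rintro a (h | h)
      · exact Or.inl (h.trans h2.1.symm)
      · exact Or.inr (h.trans h2.2.symm)
    · refine ⟨c, h1, Or.inr h2.1, Or.inl h2.2, ?_⟩
      rintro a (h | h)
      · exact Or.inr (h.trans h2.2.symm)
      · exact Or.inl (h.trans h2.1.symm)
  obtain ⟨c1, hχ1, e1, e1', -⟩ := hcand j1 hc1
  obtain ⟨c2, hχ2, e2, e2', h2⟩ := hcand j2 hc2
  obtain ⟨c3, hχ3, e3, e3', h3⟩ := hcand j3 hc3
  obtain ⟨c4, hχ4, e4, e4', -⟩ := hcand j4 hc4
  -- a candidate linked at both ends to chosen candidates is unmatched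
  have hfix : ∀ (c : Cand F) (a a' b b' : V) (d d' : Cand F), χ c = true →
      (∀ x, IsEnd x c → x = a ∨ x = a') → Two H a → Two H a' → IsEnd b d → IsEnd b' d' →
      χ d = true → χ d' = true → Link G H a b → Link G H a' b' → α c = c := by
    intro c a a' b b' d d' hc hx ha ha' hb hb' hd hd' hab hab'
    by_contra hne
    obtain ⟨x, y, hx1, hy1, hxy⟩ := hα1 c hne
    have h5 := hα3 c hne
    rw [hc] at h5
    rcases hx x hx1 with h | h
    · subst h
      have := link_unique hG hHG ha (end_two hF1 hb) (end_two hF1 hy1) hab hxy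
      subst this
      have := end_unique hF1 hF2 hb hy1
      rw [← this, hd] at h5
      exact absurd h5 (by decide)
    · subst h
      have := link_unique hG hHG ha' (end_two hF1 hb') (end_two hF1 hy1) hab' hxy
      subst this
      have := end_unique hF1 hF2 hb' hy1
      rw [← this, hd'] at h5
      exact absurd h5 (by decide)
  have hf2 : α c2 = c2 := hfix c2 (p j2) (p (j2 + 1)) (p (j1 + 1)) (p j3) c1 c3 hχ2 h2
    (hc2.two hF1) (hc2.symm.two hF1) e1' e3 hχ1 hχ3 hl12.symm' hl23
  have hf3 : α c3 = c3 := hfix c3 (p j3) (p (j3 + 1)) (p (j2 + 1)) (p j4) c2 c4 hχ3 h3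
    (hc3.two hF1) (hc3.symm.two hF1) e2' e4 hχ2 hχ4 hl23.symm' hl34
  refine hα2 c2 c3 ?_ ⟨_, _, e2', e3, hl23⟩ hf2 hf3
  intro h
  rw [← h] at e3 e3'
  rcases h2 _ e3 with h | h
  · have := hinj _ _ (by omega) (by omega) h
    omega
  · have := hinj _ _ (by omega) (by omega) h
    omega

end core

/-- Every graph of maximum degree at most three has an 11-blocking partition of width at most
`4^17`. -/
theorem main (V : Type) [Finite V] (G : SimpleGraph V) (hdeg : ∀ v, (G.neighborSet v).ncard ≤ 3) :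
    ∃ R : Setoid V, IsConnectedPartition G R ∧ WidthLE R (4 ^ 17) ∧ IsBlocking G R 11 := by
  classical
  have hG : Deg3 G := by
    intro v a b c d ha hb hc hd
    by_contra hcon
    push Not at hcon
    obtain ⟨h1, h2, h3, h4, h5, h6⟩ := hcon
    have hsub : ((({a, b, c, d} : Finset V)) : Set V) ⊆ G.neighborSet v := by
      intro x hx
      simp only [Finset.coe_insert, Finset.coe_singleton, Set.mem_insert_iff,
        Set.mem_singleton_iff] at hx
      rcases hx with rfl | rfl | rfl | rfl <;> assumption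
    have h7 := Set.ncard_le_ncard hsub (Set.toFinite _)
    rw [Set.ncard_coe_finset] at h7
    have h8 : ({a, b, c, d} : Finset V).card = 4 := by
      rw [Finset.card_insert_of_notMem (by simp [h1, h2, h3]),
        Finset.card_insert_of_notMem (by simp [h4, h5]),
        Finset.card_insert_of_notMem (by simp [h6]), Finset.card_singleton]
    have := hdeg v
    omega
  obtain ⟨H, hHG, hH2, hI, hC⟩ := exists_opt G
  obtain ⟨F, hF1, hF2, hF3⟩ := exists_family H
  let r : Cand F → Cand F → Prop := fun c c' => ∃ a b, IsEnd a c ∧ IsEnd b c' ∧ Link G H a b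
  obtain ⟨α, hα0, hα1, hα2⟩ := exists_matching r
    (fun c c' ⟨a, b, h1, h2, h3⟩ => ⟨b, a, h2, h1, h3.symm'⟩)
  obtain ⟨χ, hχ1, hχ2⟩ := Pool.Agent.V11122.two_color' α (fun c : Cand F => (c.1, !c.2)) hα0
    (fun c => by simp) (fun c h => by
      have := congrArg Prod.snd h
      simp at this)
  have hχ : ∀ w, χ (w, true) = !χ (w, false) := fun w => hχ2 (w, false)
  refine ⟨(KK G H χ).reachableSetoid, ?_, ?_, ?_⟩
  · intro v
    have key : ∀ (x u : V) (P : (KK G H χ).Walk x u) (hx : (KK G H χ).Reachable v x)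
        (hu : (KK G H χ).Reachable v u),
        (G.induce {u | (KK G H χ).reachableSetoid v u}).Reachable ⟨x, hx⟩ ⟨u, hu⟩ := by
      intro x u P
      induction P with
      | nil => intro hx hu; exact Reachable.refl _
      | @cons x y u hxy P ih =>
        intro hx hu
        have hy : (KK G H χ).Reachable v y := hx.trans hxy.reachable
        refine Reachable.trans (Adj.reachable ?_) (ih hy hu)
        exact KK_le hHG χ hxy
    haveI : Nonempty {u | (KK G H χ).reachableSetoid v u} := ⟨⟨v, Reachable.refl _⟩⟩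
    refine ⟨?_⟩
    rintro ⟨x, hx⟩ ⟨y, hy⟩
    obtain ⟨P⟩ := (hx : (KK G H χ).Reachable v x).symm.trans hy
    exact key x y P hx hy
  · intro v
    have hsub : {u | (KK G H χ).reachableSetoid v u} ⊆
        {y | ∃ P : (KK G H χ).Walk v y, P.length ≤ 17} := by
      rintro u ⟨P⟩
      exact ⟨P.toPath, KK_path hH2 hI hF1 hF3 hχ _ P.toPath.2⟩
    have hdegK : ∀ v, ((KK G H χ).neighborSet v).ncard ≤ 3 := by
      intro v
      refine le_trans (Set.ncard_le_ncard ?_ (Set.toFinite _)) (hdeg v)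
      intro u hu
      exact KK_le hHG χ hu
    exact (Set.ncard_le_ncard hsub (Set.toFinite _)).trans (ball_card hdegK v 17)
  · intro u v P hP hcl
    by_contra hcon
    push Not at hcon
    have hinj : ∀ i j, i ≤ P.length → j ≤ P.length → P.getVert i = P.getVert j → i = j :=
      fun i j hi hj h => hP.getVert_injOn hi hj h
    refine blocking hG hHG hH2 hI hC hF1 hF2 (χ := χ) (α := α) hα1 hα2 hχ1 P.getVert P.length
      hcon hinj (fun i hi => P.adj_getVert_succ hi) ?_
    intro i j hi hj h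
    have := hcl _ (P.getVert_mem_support i) _ (P.getVert_mem_support j) h.reachable
    exact h.ne this

/-- There are integers `ℓ, c ≥ 1` such that every finite graph of maximum degree at most three has
an `ℓ`-blocking (connected) partition of width at most `c`. -/
theorem result : ∃ ℓ c : ℕ, 1 ≤ ℓ ∧ 1 ≤ c ∧ ∀ (V : Type) [Finite V] (G : SimpleGraph V),
    (∀ v, (G.neighborSet v).ncard ≤ 3) →
      ∃ R : Setoid V, IsConnectedPartition G R ∧ WidthLE R c ∧ IsBlocking G R ℓ :=
  ⟨11, 4 ^ 17, by norm_num, by norm_num, fun V _ G hG => main V G hG⟩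

end Pool.Agent.Results.MP_cb714e_co.BlockingDegreeThree
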